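import Pool.Agent.MWHP.StmtsP

/-!
# Row JPC of block MWHP (helper49)
-/

namespace Pool.Agent.MWHP.H49

open Pool.Agent.Helper14_MV Pool.Agent.Helper2_MV Pool.Agent.MVO Pool.Agent.MWL Pool.Agent.MWS
open Pool.Agent.MWA Pool.Agent.MWH

/-- row JPC -/
theorem jpc (hL : Pool.Agent.MWHP.LrnnStmt) (h2 : Pool.Agent.MWHP.Lt2Stmt)
    (hJ : Pool.Agent.MWHP.JpxStmt) : Pool.Agent.MWHP.JpcStmt := by
  intro n β hβ k a b i u v F hV hLL hF s s' hs h1 h2'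
  refine hJ n β hβ k a b i F hV hF s s' hs ?_
  intro θ hle hN hT
  exact ⟨fun j hj hA => hT (h1 θ hle hN
      ((h2 n _ (hL n β θ hβ.toBasN hle) k a u v hLL).1 ⟨j, hj, hA⟩)),
    fun j hj hFj hA => hT (h2' θ hle hN j hj hFj hA)⟩

end Pool.Agent.MWHP.H49
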